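import Pool.Agent.helper73.SHL.Spec

set_option autoImplicit false

namespace Pool.Agent.SHL

open Matrix Module Pool.Agent.PR

section ext

variable {V : Type} [AddCommGroup V] [Module ℚ V] (L : Submodule ℚ V)

/-- extension by zero -/
private def KT_ext : ((V ⧸ L) →ₗ[ℚ] L) →ₗ[ℚ] Module.End ℚ V where
  toFun f := L.subtype ∘ₗ f ∘ₗ L.mkQ
  map_add' f g := by
    ext v
    simp
  map_smul' c f := by
    ext v
    simp

private theorem KT_ext_apply (f : (V ⧸ L) →ₗ[ℚ] L) (v : V) :
    KT_ext L f v = (f (L.mkQ v) : V) := rfl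

private theorem KT_ext_inj : Function.Injective (KT_ext L) := by
  intro f g h
  apply LinearMap.ext
  intro q
  obtain ⟨v, rfl⟩ := L.mkQ_surjective q
  have h1 := LinearMap.congr_fun h v
  rw [KT_ext_apply, KT_ext_apply] at h1
  exact Subtype.ext h1

private theorem KT_ext_finrank (f : (V ⧸ L) →ₗ[ℚ] L) :
    finrank ℚ (LinearMap.range (KT_ext L f)) = finrank ℚ (LinearMap.range f) := by
  have h1 : LinearMap.range (KT_ext L f) = (LinearMap.range f).map L.subtype := by
    show LinearMap.range (L.subtype ∘ₗ f ∘ₗ L.mkQ) = _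
    rw [LinearMap.range_comp, LinearMap.range_comp_of_range_eq_top _ L.range_mkQ]
  rw [h1]
  exact (LinearEquiv.finrank_eq
    (Submodule.equivMapOfInjective L.subtype L.injective_subtype (LinearMap.range f))).symm

private theorem KT_ext_surj (x : Module.End ℚ V) (h1 : ∀ w ∈ L, x w = 0) (h2 : ∀ v, x v ∈ L) :
    ∃ f, KT_ext L f = x := by
  refine ⟨L.liftQ (LinearMap.codRestrict L x h2) ?_, ?_⟩
  · intro w hw
    rw [LinearMap.mem_ker]
    apply Subtype.ext
    exact h1 w hw
  · apply LinearMap.ext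
    intro v
    rw [KT_ext_apply, Submodule.mkQ_apply, Submodule.liftQ_apply]
    rfl

end ext

/-- the elements `ρ g - 1` with `g` trivial on `L` and on the quotient -/
private def KT_S {V : Type} [AddCommGroup V] [Module ℚ V] {Q : Type} [Group Q]
    (ρ : Q →* Module.End ℚ V) (G₁ : Subgroup Q) (L : Submodule ℚ V) :
    AddSubgroup (Module.End ℚ V) where
  carrier := {x | ∃ g ∈ G₁, (∀ w ∈ L, ρ g w = w) ∧ (∀ v, ρ g v - v ∈ L) ∧ x = ρ g - 1}
  zero_mem' := ⟨1, G₁.one_mem, by simp, by simp, by simp⟩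
  add_mem' := by
    rintro x y ⟨g, hg, hg1, hg2, rfl⟩ ⟨h, hh, hh1, hh2, rfl⟩
    refine ⟨g * h, G₁.mul_mem hg hh, fun w hw => ?_, fun v => ?_, ?_⟩
    · rw [map_mul, Module.End.mul_apply, hh1 w hw, hg1 w hw]
    · have e : ρ (g * h) v - v = (ρ g (ρ h v) - ρ h v) + (ρ h v - v) := by
        rw [map_mul, Module.End.mul_apply]
        abel
      rw [e]
      exact L.add_mem (hg2 _) (hh2 _)
    · apply LinearMap.ext
      intro v
      have e : ρ g (ρ h v) = ρ g v + (ρ h v - v) := by
        have e1 : ρ g (v + (ρ h v - v)) = ρ g v + (ρ h v - v) := by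
          rw [map_add, hg1 _ (hh2 v)]
        rw [← e1]
        congr 1
        abel
      rw [map_mul, LinearMap.add_apply, LinearMap.sub_apply, LinearMap.sub_apply,
        LinearMap.sub_apply, Module.End.mul_apply, e, Module.End.one_apply]
      abel
  neg_mem' := by
    rintro x ⟨g, hg, hg1, hg2, rfl⟩
    have hinv : ∀ v, ρ g⁻¹ (ρ g v) = v := by
      intro v
      rw [← Module.End.mul_apply, ← map_mul, inv_mul_cancel, map_one, Module.End.one_apply]
    have hinv' : ∀ v, ρ g (ρ g⁻¹ v) = v := by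
      intro v
      rw [← Module.End.mul_apply, ← map_mul, mul_inv_cancel, map_one, Module.End.one_apply]
    have h1 : ∀ w ∈ L, ρ g⁻¹ w = w := by
      intro w hw
      have := hinv w
      rwa [hg1 w hw] at this
    refine ⟨g⁻¹, G₁.inv_mem hg, h1, fun v => ?_, ?_⟩
    · have h2 := hg2 (ρ g⁻¹ v)
      rw [hinv'] at h2
      have h3 := L.neg_mem h2
      rwa [neg_sub] at h3
    · apply LinearMap.ext
      intro v
      have h2 := hinv v
      have e1 : ρ g v = v + (ρ g v - v) := by abel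
      rw [e1, map_add, h1 _ (hg2 v)] at h2
      rw [LinearMap.neg_apply, LinearMap.sub_apply, LinearMap.sub_apply, Module.End.one_apply,
        neg_sub]
      have h3 : ρ g⁻¹ v = v - (ρ g v - v) := by
        rw [eq_sub_iff_add_eq]
        exact h2
      rw [h3]
      abel

private theorem KT_span {E : Type} [AddCommGroup E] [Module ℚ E] (S : AddSubgroup E) (x : E)
    (hx : x ∈ Submodule.span ℚ (S : Set E)) : ∃ k : ℕ, 0 < k ∧ (k : ℚ) • x ∈ S := by
  induction hx using Submodule.span_induction with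
  | mem x hx =>
    refine ⟨1, one_pos, ?_⟩
    rw [Nat.cast_one, one_smul]
    exact hx
  | zero =>
    refine ⟨1, one_pos, ?_⟩
    rw [smul_zero]
    exact S.zero_mem
  | add x y _ _ hx hy =>
    obtain ⟨k, hk, hk2⟩ := hx
    obtain ⟨l, hl, hl2⟩ := hy
    refine ⟨k * l, Nat.mul_pos hk hl, ?_⟩
    have e : ((k * l : ℕ) : ℚ) • (x + y) = l • ((k : ℚ) • x) + k • ((l : ℚ) • y) := by
      rw [← Nat.cast_smul_eq_nsmul ℚ l, ← Nat.cast_smul_eq_nsmul ℚ k, smul_smul, smul_smul,
        smul_add, Nat.cast_mul, mul_comm (l : ℚ) (k : ℚ)]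
    rw [e]
    exact S.add_mem (S.nsmul_mem hk2 l) (S.nsmul_mem hl2 k)
  | smul q x _ hx =>
    obtain ⟨k, hk, hk2⟩ := hx
    refine ⟨q.den * k, Nat.mul_pos q.den_pos hk, ?_⟩
    have e : ((q.den * k : ℕ) : ℚ) • (q • x) = q.num • ((k : ℚ) • x) := by
      rw [← Int.cast_smul_eq_zsmul ℚ q.num, smul_smul, smul_smul, Nat.cast_mul]
      congr 1
      have := Rat.mul_den_eq_num q
      rw [← this]
      ring
    rw [e]
    exact S.zsmul_mem hk2 q.num

private theorem KT_arith (m e a b c : ℕ) (he : 1 ≤ e) (ha : a + max m e ≤ m * e)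
    (hb : 2 * b + m ≤ m * m) (hc : c + 1 ≤ e) :
    2 * (a + b + c) ≤ (m + e - 1) * (m + e - 2) + 2 := by
  have h1 : m ≤ max m e := le_max_left _ _
  have hm : 1 ≤ m := by
    by_contra h
    have : m = 0 := by omega
    subst this
    have h2 : e ≤ max 0 e := le_max_right _ _
    omega
  obtain ⟨m', rfl⟩ : ∃ m', m = m' + 1 := ⟨m - 1, by omega⟩
  obtain ⟨e', rfl⟩ : ∃ e', e = e' + 1 := ⟨e - 1, by omega⟩
  have e1 : m' + 1 + (e' + 1) - 1 = m' + e' + 1 := by omega
  have e2 : m' + 1 + (e' + 1) - 2 = m' + e' := by omega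
  rw [e1, e2]
  have h4 : 3 * e' ≤ e' * e' + 2 := by
    rcases Nat.lt_or_ge e' 3 with h | h
    · interval_cases e' <;> omega
    · nlinarith
  have ha2 : a + (m' + 1) ≤ (m' + 1) * (e' + 1) := by omega
  have ha3 : a ≤ (m' + 1) * e' := by nlinarith
  have hb3 : 2 * b ≤ m' * m' + m' := by nlinarith
  have hc3 : c ≤ e' := by omega
  nlinarith

theorem KT (hHA : HA_stmt) (hSTP : STP_stmt) (hBND : BND_stmt) (hNRO : NRO_stmt)
    (hKTU : KTU_stmt) : KT_stmt := by
  intro n hn V _ _ _ hV Q _ hsol ρ hinj hint N hN hHi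
  have hN2 : 2 ≤ N := by
    have : 2 ≤ (n - 1) * (n - 2) := by
      have h1 : 2 ≤ n - 1 := by omega
      have h2 : 1 ≤ n - 2 := by omega
      calc 2 = 2 * 1 := rfl
        _ ≤ (n - 1) * (n - 2) := Nat.mul_le_mul h1 h2
    omega
  have : Nontrivial V := Module.nontrivial_of_finrank_pos (R := ℚ) (by omega)
  have hfr1 : finrank ℚ ℚ = 1 * 1 := by rw [Module.finrank_self]
  obtain ⟨G₁, L, a, b, c, hG₁, hL, hst, habc, hc, ⟨Q', hQ', ρ', hsol', hinj', hint', hHi'⟩, ha⟩ :=
    hSTP ℚ 1 inferInstance hfr1 V Q hsol ρ hinj hint N hHi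
  have hb := hBND ℚ 1 inferInstance hfr1 (V ⧸ L) Q' hsol' ρ' hinj' hint' b hHi'
  have hdim : finrank ℚ (V ⧸ L) + finrank ℚ L = n := by
    rw [← hV]
    exact Submodule.finrank_quotient_add_finrank L
  set m := finrank ℚ (V ⧸ L) with hm
  set e := finrank ℚ L with he
  have he1 : 1 ≤ e := by omega
  have hb' : 2 * b + m ≤ m * m := by
    have : 2 * b + 1 * 1 * m + 2 * m ≤ 1 * 1 * m * m + 2 * m * 1 := hb
    nlinarith
  have hc' : c + 1 ≤ e := by
    have : c + 1 ≤ 1 * e := hc
    omega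
  -- the span
  let S := KT_S ρ G₁ L
  have hS : ∀ x ∈ (S : Set (Module.End ℚ V)), (∀ w ∈ L, x w = 0) ∧ ∀ v, x v ∈ L := by
    rintro x ⟨g, hg, hg1, hg2, rfl⟩
    refine ⟨fun w hw => ?_, fun v => hg2 v⟩
    rw [LinearMap.sub_apply, Module.End.one_apply, hg1 w hw, sub_self]
  have ha' : a ≤ finrank ℚ (Submodule.span ℚ (S : Set (Module.End ℚ V))) := ha
  by_cases hm0 : m = 0
  · -- the quotient is zero
    exfalso
    have hLtop : L = ⊤ := by
      apply Submodule.eq_top_of_finrank_eq
      rw [hV]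
      omega
    have hS0 : Submodule.span ℚ (S : Set (Module.End ℚ V)) = ⊥ := by
      rw [Submodule.span_eq_bot]
      intro x hx
      apply LinearMap.ext
      intro v
      exact (hS x hx).1 v (by rw [hLtop]; trivial)
    rw [hS0, finrank_bot] at ha'
    rw [hm0] at hb' hdim
    have h1 : a = 0 := by omega
    have h2 : b = 0 := by omega
    have h3 : N ≤ n - 1 := by omega
    have h4 : (n - 1) * (n - 2) + 2 < 2 * (n - 1) := by omega
    obtain ⟨k, rfl⟩ : ∃ k, n = k + 3 := ⟨n - 3, by omega⟩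
    have e1 : k + 3 - 1 = k + 2 := by omega
    have e2 : k + 3 - 2 = k + 1 := by omega
    rw [e1, e2] at h4
    nlinarith
  · have hm1 : 1 ≤ m := by omega
    have : Nontrivial (V ⧸ L) := Module.nontrivial_of_finrank_pos (R := ℚ) (by omega)
    have : Nontrivial L := Module.nontrivial_of_finrank_pos (R := ℚ) (by omega)
    by_cases hrk : ∃ x ∈ Submodule.span ℚ (S : Set (Module.End ℚ V)),
        finrank ℚ (LinearMap.range x) = 1
    · obtain ⟨x, hx, hx1⟩ := hrk
      obtain ⟨k, hk, hk2⟩ := KT_span S x hx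
      obtain ⟨z, hz, hz1, hz2, hz3⟩ := hk2
      have hz4 : finrank ℚ (LinearMap.range (ρ z - 1)) = 1 := by
        rw [← hz3, LinearMap.range_smul x (k : ℚ) (by exact_mod_cast hk.ne')]
        exact hx1
      obtain ⟨h1, h2, h3, -, -, -⟩ := hHA Q
      have hHiG : Hi N G₁ := by
        have h4 := h3 N ⊤ G₁ (by
          rw [Subgroup.relIndex_top_right]
          exact hG₁.index_ne_zero) hHi
        rwa [inf_top_eq] at h4
      have hdown : ∀ j : ℕ, Hi (2 + j) G₁ → Hi 2 G₁ := by
        intro j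
        induction j with
        | zero => exact fun h => h
        | succ j ih => exact fun h => ih (h2 _ _ h)
      have hHi2 : Hi 2 G₁ := hdown (N - 2) (by rwa [Nat.add_sub_cancel' hN2])
      obtain ⟨u, hu1, hu2⟩ := hKTU V Q ρ hinj hint G₁ L hst hHi2 z hz hz1 hz2 hz4
      exact ⟨z, u, hu1, hz4, hu2⟩
    · exfalso
      push Not at hrk
      let W : Submodule ℚ ((V ⧸ L) →ₗ[ℚ] L) :=
        (Submodule.span ℚ (S : Set (Module.End ℚ V))).comap (KT_ext L)
      have hW1 : ∀ x ∈ W, finrank ℚ (LinearMap.range x) ≠ 1 := by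
        intro f hf
        rw [← KT_ext_finrank L f]
        exact hrk _ hf
      have hSle : Submodule.span ℚ (S : Set (Module.End ℚ V)) ≤ LinearMap.range (KT_ext L) := by
        rw [Submodule.span_le]
        intro x hx
        obtain ⟨h1, h2⟩ := hS x hx
        obtain ⟨f, hf⟩ := KT_ext_surj L x h1 h2
        exact ⟨f, hf⟩
      have hWmap : W.map (KT_ext L) = Submodule.span ℚ (S : Set (Module.End ℚ V)) := by
        rw [Submodule.map_comap_eq]
        exact inf_eq_right.2 hSle
      have hWfr : finrank ℚ W = finrank ℚ (Submodule.span ℚ (S : Set (Module.End ℚ V))) := by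
        rw [← hWmap]
        exact LinearEquiv.finrank_eq (Submodule.equivMapOfInjective (KT_ext L) (KT_ext_inj L) W)
      have hnro := hNRO (V ⧸ L) L W hW1
      have hnro' : a + max m e ≤ m * e := by
        have : finrank ℚ W + max m e ≤ m * e := hnro
        omega
      have hfin := KT_arith m e a b c he1 hnro' hb' hc'
      rw [hdim, habc] at hfin
      omega

end Pool.Agent.SHL
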