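import Pool.Agent.helper73.SHL.Spec

set_option autoImplicit false

namespace Pool.Agent.SHL

open Matrix Module Pool.Agent.PR NumberField

/-- the inclusion of a group of integral elements in the group of units of the ring of integers -/
private noncomputable def UNT_hom (K : Type) [Field K] [NumberField K] (H : Subgroup Kˣ)
    (hint : ∀ u ∈ H, IsIntegral ℤ (u : K)) : H →* (𝓞 K)ˣ where
  toFun u := ⟨⟨((u : Kˣ) : K), hint _ u.2⟩, ⟨((u : Kˣ)⁻¹ : Kˣ), hint _ (H.inv_mem u.2)⟩, by
    ext
    simp, by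
    ext
    simp⟩
  map_one' := by
    apply Units.ext
    apply RingOfIntegers.ext
    rfl
  map_mul' x y := by
    apply Units.ext
    apply RingOfIntegers.ext
    rfl

private theorem UNT_hom_val (K : Type) [Field K] [NumberField K] (H : Subgroup Kˣ)
    (hint : ∀ u ∈ H, IsIntegral ℤ (u : K)) (u : H) :
    (((UNT_hom K H hint u : (𝓞 K)ˣ) : 𝓞 K) : K) = ((u : Kˣ) : K) := rfl

private theorem UNT_rank (K : Type) [Field K] [NumberField K] :
    NumberField.Units.rank K + 1 ≤ finrank ℚ K := by
  have h1 := InfinitePlace.card_add_two_mul_card_eq_rank K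
  have h2 := InfinitePlace.card_eq_nrRealPlaces_add_nrComplexPlaces K
  have h3 : 0 < Fintype.card (InfinitePlace K) := Fintype.card_pos
  unfold NumberField.Units.rank
  omega

/-- the coordinates of a unit with respect to a fundamental system -/
private theorem UNT_coord (K : Type) [Field K] [NumberField K] :
    ∃ c : (𝓞 K)ˣ → (Fin (NumberField.Units.rank K) → ℤ), (∀ u v, c (u * v) = c u + c v) ∧
      ∀ u, c u = 0 → ∃ j : ℕ, 0 < j ∧ u ^ j = 1 := by
  have hex := NumberField.Units.exist_unique_eq_mul_prod K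
  let d : (𝓞 K)ˣ → NumberField.Units.torsion K × (Fin (NumberField.Units.rank K) → ℤ) :=
    fun u => (hex u).exists.choose
  have hd : ∀ u, u = (d u).1 * ∏ i, (NumberField.Units.fundSystem K i) ^ ((d u).2 i) :=
    fun u => (hex u).exists.choose_spec
  have hmul : ∀ u v, d (u * v) = ((d u).1 * (d v).1, (d u).2 + (d v).2) := by
    intro u v
    refine (hex (u * v)).unique (hd (u * v)) ?_
    have h1 := hd u
    have h2 := hd v
    simp only [Pi.add_apply, _root_.zpow_add, Finset.prod_mul_distrib, Subgroup.coe_mul]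
    rw [mul_mul_mul_comm, ← h1, ← h2]
  refine ⟨fun u => (d u).2, fun u v => ?_, fun u hu => ?_⟩
  · show (d (u * v)).2 = (d u).2 + (d v).2
    rw [hmul]
  · have h1 := hd u
    have hu' : (d u).2 = 0 := hu
    rw [hu'] at h1
    simp only [Pi.zero_apply, zpow_zero, Finset.prod_const_one, mul_one] at h1
    have h4 : u ∈ NumberField.Units.torsion K := by
      rw [h1]
      exact (d u).1.2
    have h5 : IsOfFinOrder u := h4
    exact isOfFinOrder_iff_pow_eq_one.1 h5

theorem UNT (hHD : HD_stmt) : UNT_stmt := by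
  classical
  intro K _ _ H hint N hN
  obtain ⟨c, hc_mul, hc_zero⟩ := UNT_coord K
  let φ := UNT_hom K H hint
  let f : Kˣ → (Fin (NumberField.Units.rank K) → ℚ) := fun u =>
    if h : u ∈ H then (fun i => (c (φ ⟨u, h⟩) i : ℚ)) else 0
  have hf : ∀ u (h : u ∈ H), f u = fun i => (c (φ ⟨u, h⟩) i : ℚ) := fun u h => dif_pos h
  have hadd : ∀ x ∈ H, ∀ y ∈ H, f (x * y) = f x + f y := by
    intro x hx y hy
    rw [hf x hx, hf y hy, hf (x * y) (H.mul_mem hx hy)]
    have e : φ ⟨x * y, H.mul_mem hx hy⟩ = φ ⟨x, hx⟩ * φ ⟨y, hy⟩ := by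
      rw [← map_mul]
      rfl
    funext i
    rw [e, hc_mul]
    simp only [Pi.add_apply]
    push_cast
    rfl
  have hker : ∀ x ∈ H, f x = 0 → ∃ j : ℕ, 0 < j ∧ x ^ j = 1 := by
    intro x hx h0
    rw [hf x hx] at h0
    have h00 : c (φ ⟨x, hx⟩) = 0 := by
      funext i
      have := congrFun h0 i
      simp only [Pi.zero_apply] at this
      exact_mod_cast this
    obtain ⟨j, hj, hj2⟩ := hc_zero _ h00
    refine ⟨j, hj, ?_⟩
    rw [← map_pow φ] at hj2
    have h1 := UNT_hom_val K H hint (⟨x, hx⟩ ^ j)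
    have h2 : UNT_hom K H hint (⟨x, hx⟩ ^ j) = 1 := hj2
    rw [h2] at h1
    apply Units.ext
    simpa using h1.symm
  have hfin := hHD Kˣ (Fin (NumberField.Units.rank K) → ℚ) H f hadd hker N hN
  have h3 : finrank ℚ (Submodule.span ℚ (f '' (H : Set Kˣ))) ≤ NumberField.Units.rank K := by
    refine (Submodule.finrank_le _).trans ?_
    rw [Module.finrank_fin_fun]
  have h4 := UNT_rank K
  omega

end Pool.Agent.SHL
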